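import Pool.Agent.helper12.DD.Spec

/-!
# Project dd: (MP_baa4d7_al): sets of representatives exist (module TRE)
-/

set_option autoImplicit false

open Pool.Agent.helper49.Blk

namespace Pool.Agent.DD

/-- Sets of representatives of the classes of radical `p`-chains exist. -/
theorem TRE (hF : FIN_stmt) (hC : CJR_stmt) : TRE_stmt := by
  classical
  intro G _ _ p
  obtain ⟨hE, hR⟩ := hC G
  let s : Setoid (List (Subgroup G)) := ⟨Conj, hE⟩
  let rep : List (Subgroup G) → List (Subgroup G) := fun C => (Quotient.mk s C).out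
  have hrep : ∀ C, Conj C (rep C) := by
    intro C
    have h1 : Conj (rep C) C := Quotient.exact (s := s) (Quotient.out_eq (Quotient.mk s C))
    exact hE.symm h1
  have hfin : {C : List (Subgroup G) | Radical p C}.Finite := (hF G p).1
  refine ⟨hfin.toFinset.image rep, ?_, ?_, ?_⟩
  · intro C hC'
    obtain ⟨C0, h0, rfl⟩ := Finset.mem_image.mp hC'
    exact hR p C0 _ (hrep C0) (hfin.mem_toFinset.mp h0)
  · intro C hC'
    exact ⟨rep C, Finset.mem_image_of_mem rep (hfin.mem_toFinset.mpr hC'), hrep C⟩
  · intro C hC1 C' hC2 h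
    obtain ⟨C0, -, rfl⟩ := Finset.mem_image.mp hC1
    obtain ⟨C1, -, rfl⟩ := Finset.mem_image.mp hC2
    have h3 : Conj C0 C1 := hE.trans (hE.trans (hrep C0) h) (hE.symm (hrep C1))
    have h4 : Quotient.mk s C0 = Quotient.mk s C1 := Quotient.sound h3
    show (Quotient.mk s C0).out = (Quotient.mk s C1).out
    rw [h4]

end Pool.Agent.DD
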